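import Pool.Agent.helper78.HR.Defs

/-! HR project (MP_58257a_co), row RE: from general position to real points. -/

set_option autoImplicit false

namespace Pool.Agent.helper78.HR

open Finset

theorem hrRE_rank {ι L : Type*} [Fintype ι] [LinearOrder L] (k : ι → L) :
    ∃ x : ι → ℤ, ∀ s q, x s ≤ x q ↔ k s ≤ k q := by
  classical
  refine ⟨fun s => ((univ.filter fun q => k q < k s).card : ℤ), fun s q => ?_⟩
  constructor
  · intro h
    by_contra hn
    push Not at hn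
    have h1 : (univ.filter fun r => k r < k q) ⊂ (univ.filter fun r => k r < k s) := by
      rw [Finset.ssubset_iff_of_subset]
      · exact ⟨q, by simpa using hn, by simp⟩
      · intro r hr
        simp only [Finset.mem_filter, Finset.mem_univ, true_and] at hr ⊢
        exact hr.trans hn
    have h2 := Finset.card_lt_card h1
    simp only [Nat.cast_le] at h
    omega
  · intro h
    simp only [Nat.cast_le]
    apply Finset.card_le_card
    intro r hr
    simp only [Finset.mem_filter, Finset.mem_univ, true_and] at hr ⊢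
    exact hr.trans_le h

theorem hrRE_back {ι : Type*} [Fintype ι] (x : ι → ℤ) (c : ι → ℝ)
    (hc : ∀ s q, x s ≤ x q → c s ≤ c q) :
    ∃ g : ℤ → ℝ, ∀ p q : ι, ∀ i : ℤ, x p ≤ i → i ≤ x q → c p ≤ g i ∧ g i ≤ c q := by
  classical
  have h : ∀ i : ℤ, ∃ t : ℝ, ∀ p q : ι, x p ≤ i → i ≤ x q → c p ≤ t ∧ t ≤ c q := by
    intro i
    by_cases hne : (univ.filter fun s => x s ≤ i).Nonempty
    · obtain ⟨m, hm, hmax⟩ := Finset.exists_max_image _ c hne
      simp only [Finset.mem_filter, Finset.mem_univ, true_and] at hm hmax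
      exact ⟨c m, fun p q hp hq => ⟨hmax p hp, hc m q (hm.trans hq)⟩⟩
    · refine ⟨0, fun p q hp _ => ?_⟩
      exact absurd ⟨p, by simpa using hp⟩ hne
  choose g hg using h
  exact ⟨g, fun p q i h1 h2 => hg i p q h1 h2⟩

/-- row RE, with the used rows as hypotheses. -/
theorem hrRE_main_of
    (subbox : ∀ {ι : Type} [Fintype ι] (x y : ι → ℤ), Function.Injective x →
      ∀ (K : ℕ), 1 ≤ K → ∀ (l r b t : ℤ), K ≤ (Pts x y l r b t).card →
      ∃ f : Fm ι, Fr x y f ∧ (cont x y f).card = K ∧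
        l ≤ x f.1 ∧ x f.2.1 ≤ r ∧ b ≤ y f.2.2.1 ∧ y f.2.2.2 ≤ t)
    (start : ∀ {ι : Type} [Fintype ι] (x y : ι → ℤ), Function.Injective x →
      Function.Injective y →
      ∃ V : Finset (ℤ × ℤ), 2 * V.card ≤ Fintype.card ι ∧ Fam x y 1000 V = ∅) :
    ∀ A : Finset (ℝ × ℝ), ∃ A' : Finset (ℝ × ℝ),
      A'.card ≤ A.card / 2 ∧
      ∀ x₁ x₂ y₁ y₂ : ℝ,
        1000 ≤ (A.filter (fun p => x₁ ≤ p.1 ∧ p.1 ≤ x₂ ∧ y₁ ≤ p.2 ∧ p.2 ≤ y₂)).card →
        ∃ q ∈ A', x₁ ≤ q.1 ∧ q.1 ≤ x₂ ∧ y₁ ≤ q.2 ∧ q.2 ≤ y₂ := by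
  classical
  intro A
  obtain ⟨x, hx⟩ := hrRE_rank (fun p : A => toLex (p.1.1, p.1.2))
  obtain ⟨y, hy⟩ := hrRE_rank (fun p : A => toLex (p.1.2, p.1.1))
  have hxi : Function.Injective x := by
    intro p q h
    have h1 := le_antisymm ((hx p q).1 h.le) ((hx q p).1 h.ge)
    have h2 := toLex.injective h1
    rw [Prod.mk.injEq] at h2
    exact Subtype.ext (Prod.ext h2.1 h2.2)
  have hyi : Function.Injective y := by
    intro p q h
    have h1 := le_antisymm ((hy p q).1 h.le) ((hy q p).1 h.ge)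
    have h2 := toLex.injective h1
    rw [Prod.mk.injEq] at h2
    exact Subtype.ext (Prod.ext h2.2 h2.1)
  obtain ⟨g, hg⟩ := hrRE_back x (fun p : A => p.1.1) (fun s q h => by
    have := (hx s q).1 h
    rw [Prod.Lex.toLex_le_toLex] at this
    rcases this with h | h
    · exact h.le
    · exact h.1.le)
  obtain ⟨k, hk⟩ := hrRE_back y (fun p : A => p.1.2) (fun s q h => by
    have := (hy s q).1 h
    rw [Prod.Lex.toLex_le_toLex] at this
    rcases this with h | h
    · exact h.le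
    · exact h.1.le)
  obtain ⟨V, hV1, hV2⟩ := start x y hxi hyi
  refine ⟨V.image fun z => (g z.1, k z.2), ?_, ?_⟩
  · have h1 : (V.image fun z => (g z.1, k z.2)).card ≤ V.card := Finset.card_image_le
    have h2 : Fintype.card A = A.card := Fintype.card_coe A
    rw [h2] at hV1
    omega
  · intro x₁ x₂ y₁ y₂ hcard
    set B : Finset A := univ.filter
      (fun p : A => x₁ ≤ p.1.1 ∧ p.1.1 ≤ x₂ ∧ y₁ ≤ p.1.2 ∧ p.1.2 ≤ y₂) with hB
    have hBmem : ∀ p : A, p ∈ B ↔ x₁ ≤ p.1.1 ∧ p.1.1 ≤ x₂ ∧ y₁ ≤ p.1.2 ∧ p.1.2 ≤ y₂ := by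
      intro p
      simp [hB]
    have hBc : 1000 ≤ B.card := by
      refine hcard.trans ?_
      have hsub : A.filter (fun p => x₁ ≤ p.1 ∧ p.1 ≤ x₂ ∧ y₁ ≤ p.2 ∧ p.2 ≤ y₂) ⊆
          B.image Subtype.val := by
        intro p hp
        rw [Finset.mem_filter] at hp
        exact Finset.mem_image.2 ⟨⟨p, hp.1⟩, (hBmem _).2 hp.2, rfl⟩
      exact (Finset.card_le_card hsub).trans Finset.card_image_le
    have hBne : B.Nonempty := by
      rw [← Finset.card_pos]
      omega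
    obtain ⟨p1, hp1, hp1'⟩ := Finset.exists_min_image B x hBne
    obtain ⟨p2, hp2, hp2'⟩ := Finset.exists_max_image B x hBne
    obtain ⟨p3, hp3, hp3'⟩ := Finset.exists_min_image B y hBne
    obtain ⟨p4, hp4, hp4'⟩ := Finset.exists_max_image B y hBne
    have hBP : B ⊆ Pts x y (x p1) (x p2) (y p3) (y p4) := by
      intro s hs
      exact (mem_Pts x y).2 ⟨hp1' s hs, hp2' s hs, hp3' s hs, hp4' s hs⟩
    obtain ⟨f, hf1, hf2, hf3, hf4, hf5, hf6⟩ := subbox x y hxi 1000 (by norm_num)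
      (x p1) (x p2) (y p3) (y p4) (hBc.trans (Finset.card_le_card hBP))
    have hfF : f ∉ Fam x y 1000 V := by
      rw [hV2]
      exact Finset.notMem_empty f
    rw [mem_Fam] at hfF
    have hz : ∃ z ∈ V, In x y f z := by
      by_contra hcon
      push Not at hcon
      exact hfF ⟨hf1, hf2, hcon⟩
    obtain ⟨z, hzV, hz1, hz2, hz3, hz4⟩ := hz
    have a1 := hg p1 p2 z.1 (hf3.trans hz1) (hz2.trans hf4)
    have a2 := hk p3 p4 z.2 (hf5.trans hz3) (hz4.trans hf6)
    have b1 := (hBmem p1).1 hp1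
    have b2 := (hBmem p2).1 hp2
    have b3 := (hBmem p3).1 hp3
    have b4 := (hBmem p4).1 hp4
    exact ⟨_, Finset.mem_image_of_mem _ hzV, b1.1.trans a1.1, a1.2.trans b2.2.1,
      b3.2.2.1.trans a2.1, a2.2.trans b4.2.2.2⟩

end Pool.Agent.helper78.HR
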